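import Pool.Agent.W_4a2a4a_h31.Main3

/-!
# MP_4a2a4a_lc: bounded theories with finitely many countable models have only bounded types

`T` is a bounded theory (not necessarily complete) in a countable language.  Suppose that `T` has
finitely many countable models up to isomorphism, or that `T` has countably many types and that
the types in `n` variables, `n ∈ S`, fall into finitely many classes, where two types are in one
class if the same countable models realise them.  Then the types in `n` variables, `n ∈ S`, are
`∀_K`-axiomatizable for one `K`.
-/

namespace Pool.Agent.Results.MP_4a2a4a_lc.FewClasses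

open FirstOrder FirstOrder.Language Pool.Agent.W_4a2a4a_h31

theorem result (L : FirstOrder.Language.{0, 0}) (hL : L.card ≤ Cardinal.aleph0) (T : L.Theory)
    (hT : Bounded T) (S : Set ℕ)
    (h : (∃ (t : ℕ) (N : Fin t → CM T), ∀ M : CM T, ∃ i, Nonempty (M ≃[L] N i)) ∨
      ((∀ n, Countable (T.CompleteType (Fin n))) ∧
        {D : Set (CM T) | ∃ n ∈ S, ∃ p : T.CompleteType (Fin n), D = Realizers T p}.Finite)) :
    ∃ K, ∀ n ∈ S, ∀ p : T.CompleteType (Fin n), PiAx K (p : L[[Fin n]].Theory) :=
  partA hL hT S h

end Pool.Agent.Results.MP_4a2a4a_lc.FewClasses
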