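import Pool.Agent.W_4a2a4a_h31.Main3

/-!
# MP_4a2a4a_lc: an unbounded type of a small bounded theory gives an infinite chain

Let `T` be a complete bounded theory in a countable language with countably many types.  If some
type of `T` is unbounded, then there are bounded types `r 0, r 1, ...` such that, for all `i < j`,
every countable model which realises `r j` realises `r i`, but not conversely.
-/

namespace Pool.Agent.Results.MP_4a2a4a_lc.InfiniteChain

open FirstOrder FirstOrder.Language Pool.Agent.W_4a2a4a_h31

theorem result (L : FirstOrder.Language.{0, 0}) (hL : L.card ≤ Cardinal.aleph0) (T : L.Theory)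
    (hc : T.IsComplete) (hT : Bounded T) (hS : ∀ n, Countable (T.CompleteType (Fin n)))
    (n : ℕ) (p : T.CompleteType (Fin n)) (hp : ¬ Bounded (p : L[[Fin n]].Theory)) :
    ∃ r : ℕ → Σ k : ℕ, T.CompleteType (Fin k),
      (∀ i, Bounded ((r i).2 : L[[Fin (r i).1]].Theory)) ∧
      StrictAnti fun i => Realizers T (r i).2 :=
  partB hL hT hc hS n p hp

end Pool.Agent.Results.MP_4a2a4a_lc.InfiniteChain
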